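import Pool.Agent.Lib.MP_caa638_lc.Defs
import Pool.Agent.Lib.MP_caa638_lc.Final

set_option autoImplicit false

namespace Pool.Agent.Withdrawn.MP_caa638_lc.QuasiPoly

open Pool.Agent.Lib.MP_caa638_lc

/-- For every fixed number `m` of processors, a schedule of minimum makespan of unit tasks with
precedence constraints and unit communication delays is computable in quasi-polynomial time. -/
theorem result (m : ℕ) (hm : 0 < m) :
    ∃ (f : List (List ℕ) → List (ℕ × ℕ))
      (M : Turing.TM2ComputableInTime
        (N487b59b3.bitEncode : List (List ℕ) → List Bool)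
        (N487b59b3.bitEncode : List (ℕ × ℕ) → List Bool) f) (C : ℕ),
      (∀ s, M.time s ≤ 2 ^ (C * (Nat.log 2 s + 1) ^ 2)) ∧
      ∀ G : List (List ℕ), Acyclic G →
        ∃ (π : Fin G.length → Fin m) (S : Fin G.length → ℕ), IsSchedule m G π S ∧
          f G = List.ofFn (fun j => ((π j : ℕ), S j)) ∧
          ∀ (π' : Fin G.length → Fin m) (S' : Fin G.length → ℕ), IsSchedule m G π' S' →
            makespan S ≤ makespan S' := by
  obtain ⟨M, C, h⟩ := alg_time m
  exact ⟨alg m, M, C, h, fun G hG => alg_spec hm hG⟩

end Pool.Agent.Withdrawn.MP_caa638_lc.QuasiPoly
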